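import Pool.Agent.Results.MP_019c9a_nt.GrowthImpliesPrimes

/-!
# The recursion `a (n) = |a (n - 1) - gcd (a (n - 1), n - 1)|`: the second question implies the
first for all large indices
-/

set_option autoImplicit false

namespace Pool.Agent.Results.MP_2fac2c_nt.GrowthImpliesPrimes

open Filter Topology

/-- Let `a 1 = 1`, `a n = |a (n - 1) - gcd (a (n - 1), n - 1)|` and let `b` enumerate the zeros of
`a` in increasing order (from `k = 0`).

* Every prime factor `r` of `b (k + 1)` satisfies `7 b (k + 1) ≤ 11 b k + 5 + 3 r`.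
* If `b (k + 1) ≥ θ b k` for all large `k`, for some `θ > 11 / 7`, then `b k` is prime for all
  large `k`.
* If `b k / 2 ^ k` has a positive finite limit, then `b k` is prime for all large `k`. -/
theorem result (a : ℕ → ℕ) (h1 : a 1 = 1)
    (h : ∀ n : ℕ, 2 ≤ n → a n = Int.natAbs ((a (n - 1) : ℤ) -
      ((Nat.gcd (a (n - 1)) (n - 1) : ℕ) : ℤ)))
    (b : ℕ → ℕ) (hb : StrictMono b) (hb' : Set.range b = {n | 1 ≤ n ∧ a n = 0}) :
    (∀ k r : ℕ, r.Prime → r ∣ b (k + 1) → 7 * b (k + 1) ≤ 11 * b k + 5 + 3 * r) ∧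
    ((∃ θ : ℝ, 11 / 7 < θ ∧ ∃ K : ℕ, ∀ k, K ≤ k → θ * (b k : ℝ) ≤ (b (k + 1) : ℝ)) →
      ∃ K : ℕ, ∀ k, K ≤ k → (b k).Prime) ∧
    ((∃ c : ℝ, 0 < c ∧ Tendsto (fun k => (b k : ℝ) / 2 ^ k) atTop (𝓝 c)) →
      ∃ K : ℕ, ∀ k, K ≤ k → (b k).Prime) := by
  have e : ∀ k, 1 * b k + 1 - 1 = b k := fun k => by omega
  obtain ⟨k1, k2, k3⟩ := MP_019c9a_nt.GrowthImpliesPrimes.result 1 le_rfl a h1
    (fun n hn => by rw [one_mul]; exact h n hn) b hb hb'
  simp only [e] at k1 k2 k3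
  refine ⟨fun k r hr hrb => ?_, ?_, ?_⟩
  · have := k1 k r hr hrb
    omega
  · rintro ⟨θ, hθ, hK⟩
    refine k2 ⟨θ, ?_, hK⟩
    push_cast
    linarith
  · rintro ⟨c, hc, hlim⟩
    refine k3 ⟨c, hc, ?_⟩
    have e2 : ((1 : ℕ) : ℝ) + 1 = 2 := by norm_num
    rw [e2]
    exact hlim

end Pool.Agent.Results.MP_2fac2c_nt.GrowthImpliesPrimes
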